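import Pool.Agent.H34.FH.Defs
import Pool.Agent.H34.DA.F4
import Pool.Agent.H34.DA.I

/-!
A: level sets; copy of `level` in DA/M1 with `f : G →* Multiplicative ℤ`, `f` onto, for `pos` on the lamplighter group: `v k = ⨆ {W g : height of g = k}` is bounded and `v k ≤ ∑' j, q j * v (k + j)`, `q = image (fun g => toAdd (f g)) mu`, its support generates `ℤ` (DA/I2 `image_pos_gen`, PW/Z1b `z1b_gen`), `sub_const1`.
-/

namespace Pool.Agent.H34.FH

open Pool.Agent.H34.LS Pool.Agent.H34.FL Pool.Agent.H34.DA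

universe u

private theorem fha_prob {G : Type u} [Group G] {mu : G → ℝ} (h : IsProb mu) (φ : G → ℤ) :
    IsProb (image φ mu) := by
  refine ⟨fun j => tsum_nonneg fun g => h.1 g.1, ?_⟩
  have h1 : Summable fun g : G => mu g * 1 := by
    simpa only [mul_one] using h.2.summable
  have h2 := image_sum φ h (φ := fun _ : ℤ => (1 : ℝ)) h1
  simp only [mul_one] at h2
  rwa [h.2.tsum_eq] at h2

private theorem fha_sum {G : Type u} [Group G] {mu : G → ℝ} (h : IsProb mu) {φ : G → ℝ} {C : ℝ}
    (hφ : ∀ x, |φ x| ≤ C) : Summable fun x => mu x * φ x := by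
  refine Summable.of_norm_bounded (g := fun x => mu x * C) (h.2.summable.mul_right C) fun x => ?_
  rw [Real.norm_eq_abs, abs_mul, abs_of_nonneg (h.1 x)]
  exact mul_le_mul_of_nonneg_left (hφ x) (h.1 x)

private theorem fha_supp {G : Type u} [Group G] (f : G →* Multiplicative ℤ) {mu : G → ℝ}
    (h : IsProb mu) {x : G} (hx : mu x ≠ 0) : Multiplicative.toAdd (f x) ∈
      Function.support (image (fun x : G => Multiplicative.toAdd (f x)) mu) := by
  rw [Function.mem_support]
  have h1 : 0 < mu x := lt_of_le_of_ne (h.1 x) hx.symm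
  have h2 : Summable fun g : {g : G // Multiplicative.toAdd (f g) =
      Multiplicative.toAdd (f x)} => mu g := h.2.summable.subtype _
  have h3 : mu x ≤ ∑' g : {g : G // Multiplicative.toAdd (f g) =
      Multiplicative.toAdd (f x)}, mu g :=
    h2.le_tsum (⟨x, rfl⟩ : {g : G // Multiplicative.toAdd (f g) =
      Multiplicative.toAdd (f x)}) fun g _ => h.1 g
  have h4 : 0 < image (fun x : G => Multiplicative.toAdd (f x)) mu
      (Multiplicative.toAdd (f x)) := lt_of_lt_of_le h1 h3
  exact h4.ne'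

private theorem fha_gen {G : Type u} [Group G] {f : G →* Multiplicative ℤ}
    (hf : Function.Surjective f) {mu : G → ℝ} (h : IsProb mu) (hg : Generating mu) :
    AddSubmonoid.closure (Function.support
      (image (fun x : G => Multiplicative.toAdd (f x)) mu)) = ⊤ := by
  have h1 : ∀ x : G, Multiplicative.toAdd (f x) ∈
      AddSubmonoid.closure (Function.support
        (image (fun x : G => Multiplicative.toAdd (f x)) mu)) := by
    intro x
    have hx : x ∈ Submonoid.closure (Function.support mu) := by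
      have h2 : Submonoid.closure (Function.support mu) = ⊤ := hg
      rw [h2]
      exact Submonoid.mem_top x
    induction hx using Submonoid.closure_induction with
    | mem y hy => exact AddSubmonoid.subset_closure (fha_supp f h hy)
    | one =>
      rw [map_one, toAdd_one]
      exact AddSubmonoid.zero_mem _
    | mul y z _ _ hy hz =>
      rw [map_mul, toAdd_mul]
      exact AddSubmonoid.add_mem _ hy hz
  rw [eq_top_iff]
  intro k _
  obtain ⟨g, hgk⟩ := hf (Multiplicative.ofAdd k)
  have h2 := h1 g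
  rw [hgk, toAdd_ofAdd] at h2
  exact h2

theorem level2 {G : Type u} [Group G] {f : G →* Multiplicative ℤ} (hf : Function.Surjective f)
    {mu : G → ℝ} (h : IsProb mu) (hg : Generating mu) (h0 : CenteredHeight f mu) {W : G → ℝ}
    (hW : BddHarm mu W) {s : ℝ} (hs : ∀ g, f g = 1 → W g ≤ s) (g : G) : W g ≤ s := by
  obtain ⟨C, hC⟩ := hW.1
  obtain ⟨hgt, hhgt⟩ : ∃ hgt : G → ℤ, hgt = fun g => Multiplicative.toAdd (f g) := ⟨_, rfl⟩
  have hmul : ∀ x y, hgt (x * y) = hgt x + hgt y := by
    intro x y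
    simp only [hhgt, map_mul, toAdd_mul]
  have hsurj : ∀ k : ℤ, ∃ g, hgt g = k := by
    intro k
    obtain ⟨g, hgk⟩ := hf (Multiplicative.ofAdd k)
    exact ⟨g, by simp only [hhgt, hgk, toAdd_ofAdd]⟩
  have h00 : HasSum (fun x : G => mu x * ((hgt x : ℤ) : ℝ)) 0 := by
    rw [hhgt]
    exact h0
  have hgen : AddSubmonoid.closure (Function.support (image hgt mu)) = ⊤ := by
    rw [hhgt]
    exact fha_gen hf h hg
  have hq := fha_prob h hgt
  have hq0 : HasSum (fun j : ℤ => image hgt mu j * (j : ℝ)) 0 := by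
    have h3 := image_sum hgt h (φ := fun j : ℤ => (j : ℝ)) h00.summable
    rwa [h00.tsum_eq] at h3
  obtain ⟨u, hu⟩ : ∃ u : ℤ → ℝ, ∀ k, u k = sSup (W '' {g | hgt g = k}) := ⟨_, fun _ => rfl⟩
  have hbdd : ∀ k : ℤ, BddAbove (W '' {g | hgt g = k}) := by
    intro k
    refine ⟨C, ?_⟩
    rintro _ ⟨g, _, rfl⟩
    exact (abs_le.1 (hC g)).2
  have hne : ∀ k : ℤ, (W '' {g | hgt g = k}).Nonempty := by
    intro k
    obtain ⟨g, hgk⟩ := hsurj k
    exact ⟨_, ⟨g, hgk, rfl⟩⟩
  have hWu : ∀ g : G, W g ≤ u (hgt g) := by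
    intro g
    rw [hu]
    exact le_csSup (hbdd _) ⟨g, rfl, rfl⟩
  have hub : ∀ k, |u k| ≤ C := by
    intro k
    rw [abs_le]
    constructor
    · obtain ⟨g, hgk⟩ := hsurj k
      rw [← hgk]
      exact (abs_le.1 (hC g)).1.trans (hWu g)
    · rw [hu]
      refine csSup_le (hne k) ?_
      rintro _ ⟨g, _, rfl⟩
      exact (abs_le.1 (hC g)).2
  have hsub : ∀ k, u k ≤ ∑' j, image hgt mu j * u (k + j) := by
    intro k
    have h3 : Summable fun x : G => mu x * u (k + hgt x) := fha_sum h fun x => hub _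
    have h4 := image_sum hgt h (φ := fun j : ℤ => u (k + j)) h3
    rw [h4.tsum_eq]
    conv_lhs => rw [hu]
    refine csSup_le (hne k) ?_
    rintro _ ⟨g, hgk, rfl⟩
    refine hasSum_le (fun x => ?_) (hW.2 g) h3.hasSum
    have h5 := hWu (g * x)
    have h6 : hgt (g * x) = k + hgt x := by
      rw [hmul]
      exact congrArg (· + hgt x) hgk
    rw [h6] at h5
    exact mul_le_mul_of_nonneg_left h5 (h.1 x)
  have hc := sub_const1 hq hgen hq0 hub hsub (hgt g) 0
  refine (hWu g).trans ?_
  rw [hc, hu]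
  refine csSup_le (hne 0) ?_
  rintro _ ⟨g', hg', rfl⟩
  refine hs g' ?_
  have h7 : Multiplicative.toAdd (f g') = 0 := by
    have h8 : hgt g' = 0 := hg'
    rw [hhgt] at h8
    exact h8
  exact toAdd_eq_zero.1 h7

end Pool.Agent.H34.FH
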