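import Pool.Agent.H34.FH.A
import Pool.Agent.H34.PW.W1

/-!
C: the main step.
-/

namespace Pool.Agent.H34.FH

open Pool.Agent.H34.LS Pool.Agent.H34.FL Pool.Agent.H34.DA

universe u

private theorem fhc_pow {G : Type u} [Group G] {I : Subgroup G} (hn : I.Normal) {a x y : G}
    (hy : y⁻¹ * (x⁻¹ * a * x) ∈ I) (i : ℕ) : ∃ j ∈ I, a ^ i * x = j * (x * y ^ i) := by
  induction i with
  | zero => exact ⟨1, I.one_mem, by simp⟩
  | succ i ih =>
    obtain ⟨j, hj, hij⟩ := ih
    set k := y⁻¹ * (x⁻¹ * a * x) with hk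
    have h1 : (y ^ i)⁻¹ * k * y ^ i ∈ I := by
      have := hn.conj_mem k hy (y ^ i)⁻¹
      rwa [inv_inv] at this
    have h2 := hn.conj_mem _ h1 (x * y ^ (i + 1))
    refine ⟨a * j * a⁻¹ * (x * y ^ (i + 1) * ((y ^ i)⁻¹ * k * y ^ i) * (x * y ^ (i + 1))⁻¹),
      I.mul_mem (hn.conj_mem j hj a) h2, ?_⟩
    rw [pow_succ' a, mul_assoc, hij, hk]
    group

theorem inv_le {G : Type u} [Group G] {f : G →* Multiplicative ℤ} (hf : Function.Surjective f)
    {mu : G → ℝ} (h : IsProb mu) (hg : Generating mu) (h0 : CenteredHeight f mu) {I : Subgroup G}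
    (hn : I.Normal) (hI : ∀ u : G → ℝ, BddHarm mu u → ∀ j ∈ I, ∀ x, u (j * x) = u x) {a : G}
    {F : Set G} (hF : F.Finite) (hFa : ∀ x ∈ f.ker, ∃ y ∈ F, y⁻¹ * (x⁻¹ * a * x) ∈ I)
    {u : G → ℝ} (hu : BddHarm mu u) (x : G) : u (a * x) ≤ u x := by
  obtain ⟨⟨C, hC⟩, hh⟩ := id hu
  set D : G → ℝ := fun x => u (a * x) - u x with hD
  have hDb : ∀ x, |D x| ≤ 2 * C := by
    intro x
    have h1 := abs_le.1 (hC (a * x))
    have h2 := abs_le.1 (hC x)
    rw [abs_le]
    constructor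
    · change -(2 * C) ≤ u (a * x) - u x
      linarith [h1.1, h2.2]
    · change u (a * x) - u x ≤ 2 * C
      linarith [h1.2, h2.1]
  have hDh : ∀ x, HasSum (fun t => mu t * D (x * t)) (D x) := by
    intro x
    have h1 := (hh (a * x)).sub (hh x)
    refine h1.congr_fun fun t => ?_
    rw [hD]
    dsimp only
    rw [mul_assoc, mul_sub]
  have hDI : ∀ j ∈ I, ∀ z, D (j * z) = D z := by
    intro j hj z
    have h1 : a * (j * z) = (a * j * a⁻¹) * (a * z) := by group
    rw [hD]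
    dsimp only
    rw [h1, hI u hu _ (hn.conj_mem j hj a), hI u hu j hj]
  by_contra hcon
  rw [not_le] at hcon
  have hbdd : BddAbove (Set.range D) := ⟨2 * C, by
    rintro _ ⟨y, rfl⟩
    exact (abs_le.1 (hDb y)).2⟩
  set s : ℝ := ⨆ x, D x with hs
  have hle : ∀ x, D x ≤ s := fun x => le_ciSup hbdd x
  have hs0 : 0 < s := by
    have h1 : 0 < D x := sub_pos.2 hcon
    exact h1.trans_le (hle x)
  obtain ⟨m, hm⟩ : ∃ m : ℕ, 2 * C / (s / 2) < m := exists_nat_gt _
  have hm2 : 2 * C < m * (s / 2) := by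
    rw [div_lt_iff₀ (by positivity)] at hm
    exact hm
  choose P hP0 hP using fun b => PW.harnack h hg b
  -- a common constant
  set A : ℝ := ∑ q ∈ hF.toFinset ×ˢ Finset.range m, (P (q.1 ^ q.2))⁻¹ with hA
  have hA0 : 0 ≤ A := Finset.sum_nonneg fun q _ => (inv_pos.2 (hP0 _)).le
  set p : ℝ := (A + 1)⁻¹ with hp
  have hp0 : 0 < p := by positivity
  have hpP : ∀ y ∈ F, ∀ i < m, p ≤ P (y ^ i) := by
    intro y hy i hi
    have h1 : (P (y ^ i))⁻¹ ≤ A :=
      Finset.single_le_sum (f := fun q : G × ℕ => (P (q.1 ^ q.2))⁻¹)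
        (fun q _ => (inv_pos.2 (hP0 _)).le)
        (Finset.mem_product.2 ⟨hF.mem_toFinset.2 hy, Finset.mem_range.2 hi⟩ :
          ((y, i) : G × ℕ) ∈ hF.toFinset ×ˢ Finset.range m)
    rw [hp]
    refine inv_le_of_inv_le₀ (hP0 _) ?_
    linarith
  -- a point of height zero near the supremum
  obtain ⟨x0, hx0, hx1⟩ : ∃ x0, f x0 = 1 ∧ s - p * s / 2 < D x0 := by
    by_contra hno
    push Not at hno
    have h1 := level2 hf h hg h0 (W := D) ⟨⟨2 * C, hDb⟩, hDh⟩ (s := s - p * s / 2) hno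
    have h2 : s ≤ s - p * s / 2 := ciSup_le h1
    have h3 : 0 < p * s / 2 := by positivity
    linarith
  obtain ⟨y, hy, hyI⟩ := hFa x0 (MonoidHom.mem_ker.2 hx0)
  have hbig : ∀ i < m, s / 2 ≤ D (a ^ i * x0) := by
    intro i hi
    obtain ⟨j, hj, hij⟩ := fhc_pow hn hyI i
    rw [hij, hDI j hj]
    have h1 := hP (y ^ i) (fun z => s - D z) (fun z => sub_nonneg.2 (hle z)) (fun z => by
      have h2 := (h.2.mul_right s).sub (hDh z)
      rw [one_mul] at h2
      refine h2.congr_fun fun t => ?_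
      rw [mul_sub]) x0
    have h3 : p * (s - D (x0 * y ^ i)) ≤ P (y ^ i) * (s - D (x0 * y ^ i)) :=
      mul_le_mul_of_nonneg_right (hpP y hy i hi) (sub_nonneg.2 (hle _))
    have h4 : p * (s - D (x0 * y ^ i)) < p * (s / 2) := by
      have h5 : s - D x0 < p * s / 2 := by linarith
      have h6 : p * s / 2 = p * (s / 2) := by ring
      linarith
    have h7 := lt_of_mul_lt_mul_left h4 hp0.le
    linarith
  have htel : ∑ i ∈ Finset.range m, D (a ^ i * x0) = u (a ^ m * x0) - u x0 := by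
    have h1 : ∀ i, D (a ^ i * x0) = u (a ^ (i + 1) * x0) - u (a ^ i * x0) := by
      intro i
      rw [hD]
      dsimp only
      rw [pow_succ' a, mul_assoc]
    simp only [h1]
    rw [Finset.sum_range_sub (fun i => u (a ^ i * x0)) m, pow_zero, one_mul]
  have hsum : (m : ℝ) * (s / 2) ≤ ∑ i ∈ Finset.range m, D (a ^ i * x0) := by
    have h1 := Finset.card_nsmul_le_sum (Finset.range m) (fun i => D (a ^ i * x0)) (s / 2)
      fun i hi => hbig i (Finset.mem_range.1 hi)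
    rwa [Finset.card_range, nsmul_eq_mul] at h1
  have h1 := (abs_le.1 (hC (a ^ m * x0))).2
  have h2 := (abs_le.1 (hC x0)).1
  linarith

end Pool.Agent.H34.FH
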