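import Pool.Agent.H34.FH.B
import Pool.Agent.H34.FH.C

/-!
D: `I` = the subgroup of all `a ∈ ker f` with `u (a * x) = u x` for all bounded harmonic `u` and all `x`. It is normal (`u (g * ·)` is bounded and harmonic for `u` bounded and harmonic). If `I ≠ ker f`, take `a, F` from `FCH`; `inv_le` for `u` and `-u` gives `u (a * x) = u x`, so `a ∈ I`, contradiction.
So `I = ker f`; if `f x = f x'`, then `x' * x⁻¹ ∈ ker f` and `u x' = u x`; `height_const`.
-/

namespace Pool.Agent.H34.FH

open Pool.Agent.H34.LS Pool.Agent.H34.FL Pool.Agent.H34.DA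

universe u

theorem fch_centered {G : Type u} [Group G] {f : G →* Multiplicative ℤ}
    (hf : Function.Surjective f) (hN : FCH f) {mu : G → ℝ} (h : IsProb mu) (hg : Generating mu)
    (h0 : CenteredHeight f mu) : Liouville mu := by
  let I : Subgroup G :=
    { carrier := {a | a ∈ f.ker ∧ ∀ u : G → ℝ, BddHarm mu u → ∀ x, u (a * x) = u x}
      mul_mem' := by
        rintro a b ⟨ha, ha'⟩ ⟨hb, hb'⟩
        refine ⟨f.ker.mul_mem ha hb, fun u hu x => ?_⟩
        rw [mul_assoc, ha' u hu, hb' u hu]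
      one_mem' := ⟨f.ker.one_mem, fun u _ x => by rw [one_mul]⟩
      inv_mem' := by
        rintro a ⟨ha, ha'⟩
        refine ⟨f.ker.inv_mem ha, fun u hu x => ?_⟩
        have h1 := ha' u hu (a⁻¹ * x)
        rw [mul_inv_cancel_left] at h1
        exact h1.symm }
  have hmem : ∀ a : G, a ∈ I ↔ a ∈ f.ker ∧ ∀ u : G → ℝ, BddHarm mu u → ∀ x, u (a * x) = u x :=
    fun a => Iff.rfl
  have hn : I.Normal := by
    refine ⟨fun a ha g => ?_⟩
    obtain ⟨ha1, ha2⟩ := (hmem a).1 ha
    refine (hmem _).2 ⟨(inferInstance : f.ker.Normal).conj_mem a ha1 g, fun u hu x => ?_⟩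
    have hu' : BddHarm mu (fun y => u (g * y)) := by
      obtain ⟨⟨C, hC⟩, hs⟩ := hu
      refine ⟨⟨C, fun y => hC (g * y)⟩, fun y => ?_⟩
      have h1 := hs (g * y)
      simpa only [mul_assoc] using h1
    have h1 := ha2 _ hu' (g⁻¹ * x)
    have e1 : g * (a * (g⁻¹ * x)) = g * a * g⁻¹ * x := by group
    have e2 : g * (g⁻¹ * x) = x := by group
    simp only [e1, e2] at h1
    exact h1
  have hle : I ≤ f.ker := fun a ha => ((hmem a).1 ha).1
  have hI : ∀ u : G → ℝ, BddHarm mu u → ∀ j ∈ I, ∀ x, u (j * x) = u x :=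
    fun u hu j hj x => ((hmem j).1 hj).2 u hu x
  have hIk : I = f.ker := by
    by_contra hne
    obtain ⟨a, hak, haI, F, hF, hFa⟩ := hN I hn hle hne
    refine haI ((hmem a).2 ⟨hak, fun u hu x => le_antisymm ?_ ?_⟩)
    · exact inv_le hf h hg h0 hn hI hF hFa hu x
    · have hu' : BddHarm mu (fun y => - u y) := by
        obtain ⟨⟨C, hC⟩, hs⟩ := hu
        refine ⟨⟨C, fun y => by rw [abs_neg]; exact hC y⟩, fun y => ?_⟩
        have h1 := (hs y).neg
        simpa only [mul_neg] using h1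
      have h1 := inv_le hf h hg h0 hn hI hF hFa hu' x
      exact neg_le_neg_iff.1 h1
  intro u hu x x'
  refine height_const hf h hg hu (fun y y' hyy => ?_) x x'
  have hk : y' * y⁻¹ ∈ I := by
    rw [hIk, MonoidHom.mem_ker, map_mul, map_inv, ← hyy, mul_inv_cancel]
  have h1 := hI u hu _ hk y
  rw [inv_mul_cancel_right] at h1
  exact h1.symm

end Pool.Agent.H34.FH
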