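import Pool.Agent.H34.DA.Defs

/-!
# Groups over `ℤ` with an FC-hypercentral kernel: definitions
-/

namespace Pool.Agent.H34.FH

open Pool.Agent.H34.LS Pool.Agent.H34.FL Pool.Agent.H34.DA

universe u

/-- the kernel `N` of `f` is FC-hypercentral, relative to the normal subgroups of `G`: for every normal
subgroup `I` of `G` properly contained in `N` there is `a ∈ N`, `a ∉ I`, whose conjugates by elements of `N`
lie in finitely many cosets of `I`. -/
def FCH {G : Type u} [Group G] (f : G →* Multiplicative ℤ) : Prop :=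
  ∀ I : Subgroup G, I.Normal → I ≤ f.ker → I ≠ f.ker → ∃ a ∈ f.ker, a ∉ I ∧
    ∃ F : Set G, F.Finite ∧ ∀ x ∈ f.ker, ∃ y ∈ F, y⁻¹ * (x⁻¹ * a * x) ∈ I

end Pool.Agent.H34.FH
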