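import Pool.Agent.H34.FH.Defs
import Pool.Agent.H34.LS.LL5
import Pool.Agent.H34.DA.K2

/-!
E: the cover of the lamplighter group. Let `I` be normal, `I ≤ ker (hpos ∘ theta)`, not equal. If some `a ∈ ker theta` is not in `I`: `a` lies in a finite normal subgroup `N`, `F = N`: `y = x⁻¹ a x ∈ N`. Otherwise `ker theta ≤ I`; any `a ∈ ker`, `a ∉ I`, `F = {a}`:
`a⁻¹ * (x⁻¹ a x) ∈ ker theta` since `theta a, theta x` have position `0` and commute (DA/M2 `m2_comm`).
-/

namespace Pool.Agent.H34.FH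

open Pool.Agent.H34.LS Pool.Agent.H34.FL Pool.Agent.H34.DA

universe u

private theorem fhE_sh0 (l : ℤ →₀ ZMod 2) : LL.sh 0 l = l := by
  ext i
  rw [LL.sh_apply, sub_zero]

private theorem fhE_comm {z g : LL} (hz : z.pos = 0) (hg : g.pos = 0) : g * z = z * g := by
  ext1
  · rw [LL.mul_lamp, LL.mul_lamp, hz, hg, fhE_sh0, fhE_sh0, add_comm]
  · show g.pos + z.pos = z.pos + g.pos
    rw [add_comm]

private theorem fhE_pos {G : Type u} [Group G] (theta : G →* LL) {a : G}
    (ha : a ∈ (LL.hpos.comp theta).ker) : (theta a).pos = 0 := by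
  have h1 : Multiplicative.ofAdd (theta a).pos = 1 := ha
  exact h1

theorem cover_fch {G : Type u} [Group G] (theta : G →* LL)
    (hk : ∀ x, theta x = 1 → ∃ N : Subgroup G, N.Normal ∧ (N : Set G).Finite ∧ x ∈ N ∧
      N ≤ theta.ker) : FCH (LL.hpos.comp theta) := by
  intro I hIn hIle hIne
  by_cases h : ∃ a, theta a = 1 ∧ a ∉ I
  · obtain ⟨a, ha, haI⟩ := h
    obtain ⟨N, hN, hfin, haN, hNle⟩ := hk a ha
    refine ⟨a, ?_, haI, (N : Set G), hfin, fun x hx => ⟨x⁻¹ * a * x, ?_, ?_⟩⟩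
    · rw [MonoidHom.mem_ker, MonoidHom.comp_apply, ha, map_one]
    · have h1 := hN.conj_mem a haN x⁻¹
      rwa [inv_inv] at h1
    · rw [inv_mul_cancel]
      exact I.one_mem
  · push Not at h
    obtain ⟨a, ha, haI⟩ := SetLike.exists_of_lt (lt_of_le_of_ne hIle hIne)
    refine ⟨a, ha, haI, {a}, Set.finite_singleton a, fun x hx => ⟨a, rfl, ?_⟩⟩
    apply h
    have h1 := fhE_pos theta ha
    have h2 := fhE_pos theta hx
    rw [map_mul, map_mul, map_mul, map_inv, map_inv, mul_assoc (theta x)⁻¹, fhE_comm h2 h1]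
    group

end Pool.Agent.H34.FH
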