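import Pool.Agent.H34.DC.Fin
import Pool.Agent.H34.LS.LL5
import Pool.Agent.H34.DA.K2

/-!
K2: the kernel is infinite.
-/

namespace Pool.Agent.H34.FH

open Pool.Agent.H34.LS Pool.Agent.H34.DC

universe u

theorem ker_infinite {G : Type u} [Group G] (theta : G →* LL) (hsurj : Function.Surjective theta) :
    ((LL.hpos.comp theta).ker : Set G).Infinite := by
  choose g hg using fun n : ℤ => hsurj ⟨Finsupp.single n 1, 0⟩
  have hinj : Function.Injective g := by
    intro m n h
    have h1 : (⟨Finsupp.single m 1, 0⟩ : LL) = ⟨Finsupp.single n 1, 0⟩ := by rw [← hg, ← hg, h]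
    have h2 : (Finsupp.single m 1 : ℤ →₀ ZMod 2) = Finsupp.single n 1 := congrArg LL.lamp h1
    exact Finsupp.single_left_injective (by decide) h2
  refine Set.infinite_of_injective_forall_mem hinj fun n => ?_
  rw [SetLike.mem_coe, MonoidHom.mem_ker, MonoidHom.comp_apply, hg]
  rfl

end Pool.Agent.H34.FH
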