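import Pool.Agent.H34.FH.K1
import Pool.Agent.H34.FH.K2

/-!
K: proofs in K1, K2.
-/
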