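import Pool.Agent.H34.FH.D
import Pool.Agent.H34.FH.E
import Pool.Agent.H34.FH.K
import Pool.Agent.H34.CM.Fin
import Pool.Agent.H34.CM.M1

/-!
Fin: assembly; the criterion for groups over `ℤ` with an FC-hypercentral kernel.
-/

namespace Pool.Agent.H34.FH

open Pool.Agent.H34.LS Pool.Agent.H34.FL Pool.Agent.H34.DC Pool.Agent.H34.DA Pool.Agent.H34.CM

universe u

theorem centered_of_mean {G : Type u} [Group G] (f : G →* Multiplicative ℤ) {mu : G → ℝ}
    (h : IsProb mu) (hm : FirstMoment mu) (h0 : mean f mu = 0) : CenteredHeight f mu := by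
  obtain ⟨S, hf, hS, hs⟩ := hm
  obtain ⟨C, hC⟩ := ht_le f hf hS
  have h1 : Summable fun g => mu g * ((Multiplicative.toAdd (f g) : ℤ) : ℝ) := by
    refine Summable.of_norm_bounded (hs.mul_left (C : ℝ)) fun g => ?_
    rw [Real.norm_eq_abs, abs_mul, abs_of_nonneg (h.1 g)]
    calc mu g * |((Multiplicative.toAdd (f g) : ℤ) : ℝ)|
        ≤ mu g * (C * (wordLength S g : ℝ)) := mul_le_mul_of_nonneg_left (hC g) (h.1 g)
      _ = (C : ℝ) * (mu g * (wordLength S g : ℝ)) := by ring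
  have h2 := h1.hasSum
  unfold mean at h0
  rw [h0] at h2
  exact h2

theorem fch_iff {G : Type u} [Group G] (f : G →* Multiplicative ℤ) (hf : Onto f) (hN : FCH f)
    {mu : G → ℝ} (h : IsProb mu) (hg : Generating mu) (hm : FirstMoment mu) :
    Liouville mu ↔ mean f mu = 0 := by
  constructor
  · intro hL
    by_contra hd
    exact drift_first f hf.surj hf.locfin hf.infinite h hm hd hL
  · intro h0
    exact fch_centered hf.surj hN h hg (centered_of_mean f h hm h0)

theorem example3 : ∃ (G : Type) (_ : Group G) (f : G →* Multiplicative ℤ), Group.FG G ∧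
    LocFinByZ G ∧ LacunaryHyperbolic G ∧ Onto f ∧ FCH f ∧
    (∃ mu : G → ℝ, IsFSProb mu ∧ Generating mu ∧ Symm mu ∧ mean f mu = 0) ∧
    (∃ mu : G → ℝ, IsFSProb mu ∧ Generating mu ∧ mean f mu ≠ 0) := by
  obtain ⟨G, iG, theta, hlac, _, hloc, hsurj, hk, _, _⟩ :=
    lift_limit LL (limit_of_locFin LL.ll_fg LL.ll_locFinByZ)
  have hfg : Group.FG G := by
    obtain ⟨S, hS, hS2, _⟩ := hlac
    exact ⟨⟨hS.toFinset, by simpa using hS2⟩⟩
  have hpos : Function.Surjective LL.hpos := by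
    intro k
    exact ⟨⟨0, Multiplicative.toAdd k⟩, rfl⟩
  have hf : Function.Surjective (LL.hpos.comp theta) := by
    rw [MonoidHom.coe_comp]
    exact hpos.comp hsurj
  refine ⟨G, iG, LL.hpos.comp theta, hfg, hloc LL.ll_locFinByZ, hlac,
    ⟨hf, locfin_any (hloc LL.ll_locFinByZ) hf, ker_infinite theta hsurj⟩, cover_fch theta hk,
    ?_, ?_⟩
  · obtain ⟨mu, h1, h2, h3⟩ := exists_symm hfg
    exact ⟨mu, h1, h2, h3, by rw [mean_eq _ h1, drift_symm _ h3]⟩
  · obtain ⟨mu, h1, h2, h3⟩ := exists_drift hfg (LL.hpos.comp theta) hf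
    exact ⟨mu, h1, h2, by rw [mean_eq _ h1]; exact h3⟩

theorem main7 :
    (∀ (G : Type u) [Group G] (f : G →* Multiplicative ℤ) (S : Set G), SmallWindows f S →
      ∀ mu : G → ℝ, IsProb mu → Generating mu → SecondMoment mu → mean f mu = 0 →
        Liouville mu) ∧
    (∀ (G : Type u) [Group G] (f : G →* Multiplicative ℤ), Onto f →
      ∀ mu : G → ℝ, IsProb mu → FirstMoment mu → mean f mu ≠ 0 → ¬ Liouville mu) ∧
    (∀ (G : Type u) [Group G] (f : G →* Multiplicative ℤ), Function.Surjective f → FCH f →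
      ∀ mu : G → ℝ, IsProb mu → Generating mu → CenteredHeight f mu → Liouville mu) ∧
    (∀ (G : Type u) [Group G] (f : G →* Multiplicative ℤ), Onto f → FCH f →
      ∀ mu : G → ℝ, IsProb mu → Generating mu → FirstMoment mu →
        (Liouville mu ↔ mean f mu = 0)) ∧
    ∃ (G : Type) (_ : Group G) (f : G →* Multiplicative ℤ), Group.FG G ∧ LocFinByZ G ∧
      LacunaryHyperbolic G ∧ Onto f ∧ FCH f ∧
      (∃ mu : G → ℝ, IsFSProb mu ∧ Generating mu ∧ Symm mu ∧ mean f mu = 0) ∧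
      (∃ mu : G → ℝ, IsFSProb mu ∧ Generating mu ∧ mean f mu ≠ 0) :=
  ⟨fun _ _ f _ hS _ h hg hm h0 => centered_sm f hS h hg hm h0,
    fun _ _ f hf _ h hm hd => drift_first f hf.surj hf.locfin hf.infinite h hm hd,
    fun _ _ _ hf hN _ h hg h0 => fch_centered hf hN h hg h0,
    fun _ _ f hf hN _ h hg hm => fch_iff f hf hN h hg hm, example3⟩

end Pool.Agent.H34.FH
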