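import Pool.Agent.H34.DC.Fin
import Pool.Agent.H34.LS.LL5
import Pool.Agent.H34.DA.K2

/-!
K1: every kernel.
-/

namespace Pool.Agent.H34.FH

open Pool.Agent.H34.LS Pool.Agent.H34.DC

universe u

theorem locfin_any {G : Type u} [Group G] (hG : LocFinByZ G) {f : G →* Multiplicative ℤ}
    (hf : Function.Surjective f) (s : Set G) (hs : s.Finite) (hsk : s ⊆ (f.ker : Set G)) :
    ((Subgroup.closure s : Subgroup G) : Set G).Finite := by
  obtain ⟨f', hf', hfin⟩ := hG
  -- elements of the kernel of `f'` have finite order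
  have htor : ∀ x, f' x = 1 → f x = 1 := by
    intro x hx
    have h1 := hfin {x} (Set.finite_singleton x) (by
      rw [Set.singleton_subset_iff, SetLike.mem_coe, MonoidHom.mem_ker]
      exact hx)
    have h2 : IsOfFinOrder x := by
      rw [← Subgroup.zpowers_eq_closure] at h1
      exact (finite_zpowers (a := x)).1 h1
    have h3 : IsOfFinOrder (f x) := f.isOfFinOrder h2
    obtain ⟨n, hn, h4⟩ := isOfFinOrder_iff_pow_eq_one.1 h3
    have h5 : (n : ℤ) * Multiplicative.toAdd (f x) = 0 := by
      have h6 := congrArg Multiplicative.toAdd h4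
      rw [toAdd_pow, toAdd_one] at h6
      simpa using h6
    have h7 : Multiplicative.toAdd (f x) = 0 := by
      rcases mul_eq_zero.1 h5 with h8 | h8
      · exact absurd h8 (by exact_mod_cast hn.ne')
      · exact h8
    exact Multiplicative.toAdd.injective h7
  obtain ⟨t, ht⟩ := hf' (Multiplicative.ofAdd 1)
  set c : ℤ := Multiplicative.toAdd (f t) with hc
  have hform : ∀ x, Multiplicative.toAdd (f x) = Multiplicative.toAdd (f' x) * c := by
    intro x
    set n : ℤ := Multiplicative.toAdd (f' x) with hn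
    have h1 : f' (x * (t ^ n)⁻¹) = 1 := by
      apply Multiplicative.toAdd.injective
      rw [map_mul, map_inv, map_zpow, ht, toAdd_mul, toAdd_inv, toAdd_zpow, toAdd_ofAdd, ← hn]
      simp
    have h2 := congrArg Multiplicative.toAdd (htor _ h1)
    rw [map_mul, map_inv, map_zpow, toAdd_mul, toAdd_inv, toAdd_zpow, toAdd_one, ← hc,
      smul_eq_mul] at h2
    linarith
  have hc0 : c ≠ 0 := by
    intro h0
    obtain ⟨x, hx⟩ := hf (Multiplicative.ofAdd 1)
    have h1 := hform x
    rw [hx, h0, mul_zero, toAdd_ofAdd] at h1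
    exact one_ne_zero h1
  refine hfin s hs fun x hx => ?_
  have h1 := hsk hx
  rw [SetLike.mem_coe, MonoidHom.mem_ker] at h1 ⊢
  have h2 := hform x
  rw [h1, toAdd_one] at h2
  apply Multiplicative.toAdd.injective
  rw [toAdd_one]
  rcases mul_eq_zero.1 h2.symm with h3 | h3
  · exact h3
  · exact absurd h3 hc0

end Pool.Agent.H34.FH
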